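import Pool.Agent.V5helper75.BR.Abs

/-!
# The conjecture of Davis and Okun for all aspherical manifolds with certain fundamental groups

Let `M` be an aspherical manifold of dimension `n`, compact or not, with or without boundary, and let `Γ` be its
fundamental group. It acts properly discontinuously on the interior `X` of the universal cover of `M`, which is a
contractible `n`-manifold without boundary, and by theorems of Stallings and Siebenmann `X × X` is homeomorphic to the
euclidean space of dimension `2 n`. We prove that all the `L²`-Betti numbers of `M` (Lueck's dimension of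
`Tor_i^{ℤ[Γ]}(N(Γ), ℤ)`, `HasL2Betti`) in the degrees `i > n / 2` are zero, if `Γ` is commensurable with the
right-angled Coxeter group `W K` of a graph `K` of the class `FG`, or with the right-angled Artin group `Raag G` of an
arbitrary finite graph `G` (two groups are commensurable if they contain isomorphic subgroups of finite index).

The class `FG` is closed under joins (direct products), unions (amalgamated products) along full subgraphs with
vanishing `ℓ²`-homology, disjoint unions (free products), and under the substitution of graphs `H v` of the class,
which are not complete, for the vertices `v` of an **arbitrary** finite graph `G` (graph products of the groups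
`W (H v)` over arbitrary graphs). There is no restriction on the manifold: it is not assumed to be related to the
thickenings of the Davis complex or of the Salvetti complex.
-/

set_option autoImplicit false

namespace Pool.Agent.Results.MP_4f4d9f_gt.AsphericalManifolds

open Pool.Agent.W907.SG Pool.Agent.N496.CV Pool.Agent.V5helper75.BK Pool.Agent.V5helper75.BR

/-- Let the group `Γ` act properly discontinuously by homeomorphisms on the space `X`, where `X × X` is homeomorphic to
the euclidean space of dimension `2 n`. Let the subgroup `H` of finite index of `Γ` be isomorphic to a subgroup `H'` of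
finite index (1) of the right-angled Coxeter group `W K` of a graph `K` of the class `FG`, or (2) of the right-angled
Artin group `Raag G` of an arbitrary finite graph `G`. Then all the `L²`-Betti numbers of `Γ` in the degrees
`i > n / 2` are zero. -/
theorem result :
    (∀ (V : Type) [Fintype V] [LinearOrder V] (K : SimpleGraph V), FG K →
      ∀ (Γ : Type) [Group Γ] (H : Subgroup Γ) (H' : Subgroup (W K)), H.FiniteIndex → H'.FiniteIndex →
      Nonempty (H ≃* H') →
      ∀ (X : Type) [TopologicalSpace X] [MulAction Γ X] [ContinuousConstSMul Γ X] [ProperlyDiscontinuousSMul Γ X]
        (n : ℕ), Nonempty (X × X ≃ₜ (Fin (2 * n) → ℝ)) → ∀ i : ℕ, n < 2 * i → HasL2Betti Γ i 0) ∧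
    (∀ (V : Type) [Fintype V] [LinearOrder V] (G : SimpleGraph V),
      ∀ (Γ : Type) [Group Γ] (H : Subgroup Γ) (H' : Subgroup (Raag G)), H.FiniteIndex → H'.FiniteIndex →
      Nonempty (H ≃* H') →
      ∀ (X : Type) [TopologicalSpace X] [MulAction Γ X] [ContinuousConstSMul Γ X] [ProperlyDiscontinuousSMul Γ X]
        (n : ℕ), Nonempty (X × X ≃ₜ (Fin (2 * n) → ℝ)) → ∀ i : ℕ, n < 2 * i → HasL2Betti Γ i 0) := by
  constructor
  · intro V _ _ K hK Γ _ H H' hH hH' e X _ _ _ _ n ex i hi
    obtain ⟨e⟩ := e
    refine q1_maps hK H.subtype (H'.subtype.comp e.toMonoidHom) H.subtype_injective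
      (H'.subtype_injective.comp e.injective) ?_ ?_ ex.some hi
    · rw [H.range_subtype]
      exact hH
    · rw [MonoidHom.range_comp, MonoidHom.range_eq_top.2 e.surjective, ← MonoidHom.range_eq_map, H'.range_subtype]
      exact hH'
  · intro V _ _ G Γ _ H H' hH hH' e X _ _ _ _ n ex i hi
    obtain ⟨e⟩ := e
    refine q1_raag G H.subtype (H'.subtype.comp e.toMonoidHom) H.subtype_injective
      (H'.subtype_injective.comp e.injective) ?_ ?_ ex.some hi
    · rw [H.range_subtype]
      exact hH
    · rw [MonoidHom.range_comp, MonoidHom.range_eq_top.2 e.surjective, ← MonoidHom.range_eq_map, H'.range_subtype]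
      exact hH'

end Pool.Agent.Results.MP_4f4d9f_gt.AsphericalManifolds
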