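import Pool.Agent.V5helper30.CV2.Few

/-!
# The conjecture of Davis and Okun for all the covers of Davis manifolds with few vertices

Let the flag complex of the finite graph `G` with `N` vertices be a real homology manifold with the real homology of
the `(n-1)`-sphere (`HSph`), for example a flag triangulation of the `(n-1)`-sphere with `N` vertices. `W G` is the
right-angled Coxeter group of `G`. It acts on its Davis complex `Σ`, which is contractible, and is an `n`-manifold if
the flag complex of `G` is a PL triangulation of the `(n-1)`-sphere. The kernel `Γ` of `W G → (ℤ/2)^N` is torsion free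
and of finite index, `M = Σ / Γ` is a closed aspherical `n`-manifold, and the manifolds `Σ / K`, `K ≤ Γ`, are all the
connected covers of `M`.

We show that for **every** subgroup `K` of `Γ`, of finite or infinite index, finitely generated or not, the
`L²`-Betti numbers `b_k(K)` (Lueck's dimension of `Tor_k^{ℤ[K]}(N(K), ℤ)`, `HasL2Betti`) vanish for all `k > N - 2 n`;
so they vanish for all `k > n / 2` if `2 N ≤ 5 n`.
-/

set_option autoImplicit false

namespace Pool.Agent.Results.MP_4f4d9f_gt.FewVertexCovers

open Pool.Agent.W907.SG Pool.Agent.W461.SGN Pool.Agent.N496.CV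
open Pool.Agent.TH652.Above (HSph)

/-- Let the flag complex of the graph `G` with `N` vertices be a real homology manifold with the homology of the
`(n-1)`-sphere. Then `2 n ≤ N`, the kernel `Γ` of `W G → (ℤ/2)^N` is torsion free of finite index, and for every
subgroup `K` of `Γ`, of arbitrary index, (1) the `L²`-Betti numbers `b_k(K)`, `k > N - 2 n`, vanish; (2) if
`2 N ≤ 5 n` then all the `L²`-Betti numbers of `K` above the middle dimension `n / 2` vanish. -/
theorem result : ∀ (n : ℕ) (V : Type) [Fintype V] [LinearOrder V] (G : SimpleGraph V), HSph n G →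
    2 * n ≤ Fintype.card V ∧ (th G).ker.FiniteIndex ∧
    (∀ g ∈ (th G).ker, ∀ j : ℕ, 0 < j → g ^ j = 1 → g = 1) ∧
    ∀ K : Subgroup (W G), K ≤ (th G).ker →
      (∀ k : ℕ, Fintype.card V < 2 * n + k → HasL2Betti K k 0) ∧
      (2 * Fintype.card V ≤ 5 * n → ∀ k : ℕ, n < 2 * k → HasL2Betti K k 0) := by
  intro n V _ _ G hS
  refine ⟨(Pool.Agent.N13.VB.main n V G hS).1, inferInstance,
    fun g hg j hj hgj => Pool.Agent.N496.CV.tf' V _ g hg j hj hgj, fun K hK =>
    ⟨fun k hk => Pool.Agent.V5helper30.CV2.few_betti hS K hK k hk, fun hN k hk =>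
      Pool.Agent.V5helper30.CV2.few_betti hS K hK k (by omega)⟩⟩

end Pool.Agent.Results.MP_4f4d9f_gt.FewVertexCovers
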