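import Pool.Agent.V5helper74.LR.Fin

/-!
# The conjecture of Davis and Okun for all the covers of the aspherical manifolds with the group of a RAAG

Let `G` be a finite graph and `A_G` (`Raag G`) its right-angled Artin group.

* (1) If the reduced real homology of all the full subcomplexes of the flag complex of `G` vanishes in the degrees
  `≥ d` (the Leray number is at most `d`), then `b_k(E) = 0` for all `k > d` and **every** group `E` which virtually
  embeds in `A_G`: arbitrary subgroups of `A_G` (of infinite index, infinitely generated), groups commensurable with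
  these, virtually compact special groups.
* (2) If a group `E` which contains a copy of a subgroup of finite index of `A_G` acts properly discontinuously on a
  space `X` with `X × X` homeomorphic to the euclidean space of dimension `2 n` (for example the interior of a
  contractible `n`-manifold), then the Leray number is at most `n / 2`, so (1) holds with `d = n / 2`.
* (3) So if such a group `E` is commensurable with `A_G`, then `b_k(Q) = 0` for all `k > n / 2` and **all** the subgroups
  `Q` of `E`.

(3) is Q1 for all the covers of all the aspherical `n`-manifolds, compact or not, with or without boundary, with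
fundamental group commensurable with a right-angled Artin group.
-/

set_option autoImplicit false

namespace Pool.Agent.Results.MP_4f4d9f_gt.LerayCovers

open Pool.Agent.N496.CV Pool.Agent.V5helper75.BK
open Pool.Agent.R703.MO (HomZero)

/-- `b_k(E) = 0` for all `k > d`. -/
def VanishAbove (E : Type) [Group E] (d : ℕ) : Prop := ∀ k : ℕ, d < k → HasL2Betti E k 0

/-- The group `H` acts properly discontinuously on a space `X` such that `X × X` is homeomorphic to the euclidean space
of dimension `2 n`. -/
def ActsProperly (H : Type) [Group H] (n : ℕ) : Prop :=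
  ∃ (X : Type) (_ : TopologicalSpace X) (_ : MulAction H X) (_ : ContinuousConstSMul H X)
    (_ : ProperlyDiscontinuousSMul H X), Nonempty (X × X ≃ₜ (Fin (2 * n) → ℝ))

section

variable {V : Type} (G : SimpleGraph V)

/-- A subgroup of finite index of `E` embeds in the right-angled Artin group of `G`. -/
def VirtEmb (E : Type) [Group E] : Prop :=
  ∃ (H : Subgroup E) (f : H →* Raag G), H.FiniteIndex ∧ Function.Injective f

/-- A subgroup of `E` is isomorphic to a subgroup of finite index of the right-angled Artin group of `G`. -/
def Contains (E : Type) [Group E] : Prop :=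
  ∃ (H : Subgroup E) (H' : Subgroup (Raag G)), H'.FiniteIndex ∧ Nonempty (H ≃* H')

/-- A subgroup of finite index of `E` is isomorphic to a subgroup of finite index of the right-angled Artin group
of `G`. -/
def Comm (E : Type) [Group E] : Prop :=
  ∃ (H : Subgroup E) (H' : Subgroup (Raag G)), H.FiniteIndex ∧ H'.FiniteIndex ∧ Nonempty (H ≃* H')

/-- The reduced real homology of the flag complexes of all the full subgraphs of `G` vanishes in the degrees `≥ d`
(`HomZero G A i` is about the degree `i - 1`). -/
def LerayLe [Fintype V] [LinearOrder V] (d : ℕ) : Prop := ∀ (A : Set V) (i : ℕ), d < i → HomZero G A i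

/-- the subgroups of a group commensurable with `A_G` virtually embed -/
theorem virtEmb_sub {E : Type} [Group E] (h : Comm G E) (Q : Subgroup E) : VirtEmb G Q := by
  obtain ⟨H, H', h1, _, ⟨e⟩⟩ := h
  refine ⟨H.subgroupOf Q, (H'.subtype.comp e.toMonoidHom).comp
    { toFun := fun x => (⟨x.1.1, x.2⟩ : H)
      map_one' := rfl
      map_mul' := fun x y => rfl }, inferInstance, ?_⟩
  intro x y hxy
  have h2 : (⟨x.1.1, x.2⟩ : H) = ⟨y.1.1, y.2⟩ := e.injective (H'.subtype_injective hxy)
  have h3 : x.1.1 = y.1.1 := congrArg (fun z : H => (z : E)) h2
  exact Subtype.ext (Subtype.ext h3)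

end

/-- Let `G` be a finite graph and `A_G` (`Raag G`) its right-angled Artin group. (1) If the reduced real homology of all
the full subcomplexes of the flag complex of `G` vanishes in the degrees `≥ d`, then `b_k(E) = 0` for all `k > d` and all
the groups `E` which virtually embed in `A_G`. (2) If a group `E` which contains a copy of a subgroup of finite index of
`A_G` acts properly discontinuously on `X`, where `X × X` is homeomorphic to the euclidean space of dimension `2 n`, then
the hypothesis of (1) holds with `d = n / 2`, so `b_k(F) = 0` for all `k > n / 2` and all the groups `F` which virtually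
embed in `A_G`. (3) If moreover `E` is commensurable with `A_G`, then `b_k(Q) = 0` for all `k > n / 2` and all the subgroups
`Q` of `E`. -/
theorem result (V : Type) [Fintype V] [LinearOrder V] (G : SimpleGraph V) :
    (∀ d : ℕ, LerayLe G d → ∀ (E : Type) [Group E], VirtEmb G E → VanishAbove E d) ∧
    (∀ (E : Type) [Group E] (n : ℕ), Contains G E → ActsProperly E n →
      LerayLe G (n / 2) ∧ ∀ (F : Type) [Group F], VirtEmb G F → VanishAbove F (n / 2)) ∧
    (∀ (E : Type) [Group E] (n : ℕ), Comm G E → ActsProperly E n → ∀ Q : Subgroup E, VanishAbove Q (n / 2)) := by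
  have h1 : ∀ d : ℕ, LerayLe G d → ∀ (E : Type) [Group E], VirtEmb G E → VanishAbove E d := by
    rintro d hd E _ ⟨H, f, hH, hf⟩ k hk
    exact Pool.Agent.V5helper74.LR.betti_emb G hd H hH f hf k hk
  have h2 : ∀ (E : Type) [Group E] (n : ℕ), Contains G E → ActsProperly E n → LerayLe G (n / 2) := by
    rintro E _ n ⟨H, H', hH', ⟨e⟩⟩ ⟨X, _, _, _, _, ⟨ex⟩⟩ A i hi
    exact Pool.Agent.V5helper74.LR.leray_act G H H' e hH' ex A (by omega)
  refine ⟨h1, fun E _ n hE hX => ⟨h2 E n hE hX, fun F _ hF => h1 _ (h2 E n hE hX) F hF⟩, ?_⟩
  intro E _ n hE hX Q
  refine h1 _ (h2 E n ?_ hX) Q (virtEmb_sub G hE Q)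
  obtain ⟨H, H', _, h4, h5⟩ := hE
  exact ⟨H, H', h4, h5⟩

end Pool.Agent.Results.MP_4f4d9f_gt.LerayCovers
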