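import Pool.Agent.V5helper30.CV2.Poset
import Pool.Agent.V5helper30.CV2.Mid

/-!
# The conjecture of Davis and Okun for all the covers of Davis manifolds of posets

Let `P` be a finite graded poset of length `n` (strict order `r`, rank function `rk : V → Fin n`) whose order complex
is Gorenstein* over the field with two elements (`GorStar`): for example the poset of the nonempty simplices of an
arbitrary triangulation of the `(n-1)`-sphere, or the face poset of an arbitrary regular cell decomposition of that
sphere. The order complex of `P` (for simplices: the barycentric subdivision) is the flag complex of the comparability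
graph `cmp r`.

`W (cmp r)` is the right-angled Coxeter group of this graph. It acts on its Davis complex `Σ`, which is contractible,
and is an `n`-manifold if the order complex of `P` is a PL triangulation of the `(n-1)`-sphere. The kernel `Γ` of
`W (cmp r) → (ℤ/2)^V` is torsion free and of finite index, `M = Σ / Γ` is a closed aspherical `n`-manifold, and the
manifolds `Σ / K`, `K ≤ Γ`, are all the connected covers of `M`.

We show that for **every** subgroup `K` of `Γ`, of finite or infinite index, finitely generated or not, the
`L²`-Betti numbers `b_k(K)` (Lueck's dimension of `Tor_k^{ℤ[K]}(N(K), ℤ)`, `HasL2Betti`) vanish for all `k > 2 n / 3`,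
for every `n`, and for all `k > n / 2` if `n ≤ 6` or `n = 8` or `n = 10`.
-/

set_option autoImplicit false

namespace Pool.Agent.Results.MP_4f4d9f_gt.PosetCovers

open Pool.Agent.W907.SG Pool.Agent.W461.SGN Pool.Agent.N496.CV
open Pool.Agent.W907.SM (GorStar)

/-- Let `(V, r)` be a finite strict partial order graded by `rk : V → Fin n` whose order complex is Gorenstein* over
the field with two elements. Then the kernel `Γ` of `W → (ℤ/2)^V` is torsion free of finite index in the right-angled
Coxeter group `W` of the comparability graph, and for every subgroup `K` of `Γ`, of arbitrary index, (1) the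
`L²`-Betti numbers `b_k(K)`, `k > 2 n / 3`, vanish; (2) if `n ≤ 6` or `n = 8` or `n = 10` then all the `L²`-Betti
numbers of `K` above the middle dimension `n / 2` vanish. -/
theorem result : ∀ (n : ℕ) (V : Type) [Fintype V] [LinearOrder V] (r : V → V → Prop) (rk : V → Fin n),
    GorStar n r rk →
    (th (Pool.Agent.W907.SM.cmp r)).ker.FiniteIndex ∧
    (∀ g ∈ (th (Pool.Agent.W907.SM.cmp r)).ker, ∀ j : ℕ, 0 < j → g ^ j = 1 → g = 1) ∧
    ∀ K : Subgroup (W (Pool.Agent.W907.SM.cmp r)), K ≤ (th (Pool.Agent.W907.SM.cmp r)).ker →
      (∀ k : ℕ, 2 * n < 3 * k → HasL2Betti K k 0) ∧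
      (n ≤ 6 ∨ n = 8 ∨ n = 10 → ∀ k : ℕ, n < 2 * k → HasL2Betti K k 0) := by
  intro n V _ _ r rk hG
  refine ⟨inferInstance, fun g hg j hj hgj => Pool.Agent.N496.CV.tf' V _ g hg j hj hgj, fun K hK =>
    ⟨fun k hk => ?_, fun hn k hk => ?_⟩⟩
  · exact Pool.Agent.V5helper30.CV2.betti hG (Pool.Agent.V5helper30.CV2.th_range n k hk) (by omega) K hK k le_rfl
  · exact Pool.Agent.V5helper30.CV2.betti hG (Pool.Agent.V5helper30.CV2.th_mid hn) (by omega) K hK k (by omega)

end Pool.Agent.Results.MP_4f4d9f_gt.PosetCovers
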